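import Mathlib

/-!
# Weitzenboeck constants of the free Lie algebra of rank two

`L` is the free Lie algebra on `x, y` over a field `K` of characteristic zero and `δ` its
derivation with `δ x = 0`, `δ y = x`.  We show that the algebra of constants `ker δ` equals the
Lie subalgebra `U1` generated by `x`, the constants `[f, g]` with `δ^(r-1) f = α g ≠ 0`, and the
pseudodeterminants `[δ A, B] - [A, δ B]` (`A`, `B` Hall monomials) which are constants.
The set of Hall monomials enters the statement as an arbitrary subset of `L`.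

Idea: `L` carries an `sl2`-action by derivations in which `δ` is the raising operator, and
`L_{n-1} ⊗ span (x, y) → L_n` is a surjection of `sl2`-modules, so every constant of degree at
least two lifts to a highest weight vector `u ⊗ x + v ⊗ y`, i.e. `v = - δ u`, `δ (δ u) = 0`.
-/

set_option autoImplicit false

namespace Pool.Agent.Results.MP_d68c88_al.Main

/-- The free Lie algebra on two generators. -/
abbrev FL (K : Type*) [Field K] : Type _ := FreeLieAlgebra K (Fin 2)

/-- The first free generator `x`. -/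
noncomputable abbrev gx (K : Type*) [Field K] : FL K := FreeLieAlgebra.of K 0

/-- The second free generator `y`. -/
noncomputable abbrev gy (K : Type*) [Field K] : FL K := FreeLieAlgebra.of K 1

/-- The Lie subalgebra `U^(1)` attached to the derivation `δ` and to the set `Hall` of Hall
monomials: it is generated by `x`, by all constants `[f, g]` such that `δ^(r-1) f = α g ≠ 0` for
some `r ≥ 1` and `α ∈ K`, and by all constants of the form `[δ A, B] - [A, δ B]` with
`A, B ∈ Hall`. -/
noncomputable def U1 {K : Type*} [Field K] (δ : LieDerivation K (FL K) (FL K))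
    (Hall : Set (FL K)) : LieSubalgebra K (FL K) :=
  LieSubalgebra.lieSpan K (FL K)
    ({gx K}
      ∪ {c | ∃ f g : FL K, c = ⁅f, g⁆ ∧ δ c = 0 ∧
          ∃ r : ℕ, 1 ≤ r ∧ ∃ α : K, (⇑δ)^[r - 1] f = α • g ∧ α • g ≠ 0}
      ∪ {c | ∃ A ∈ Hall, ∃ B ∈ Hall, c = ⁅δ A, B⁆ - ⁅A, δ B⁆ ∧ δ c = 0})

section general

/-- `L × L` with the bracket of `L ⊗ K[ε]`. -/
@[ext] structure Dbl (L : Type*) where
  /-- first component -/
  a : L
  /-- second component -/
  b : L

namespace Dbl

variable {K L : Type*} [Field K] [LieRing L] [LieAlgebra K L]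

/-- As a type this is a product. -/
def equiv : Dbl L ≃ L × L where
  toFun p := (p.a, p.b)
  invFun p := ⟨p.1, p.2⟩
  left_inv _ := rfl
  right_inv _ := rfl

instance : AddCommGroup (Dbl L) := equiv.addCommGroup

instance : Module K (Dbl L) := equiv.module K

@[simp] theorem add_a (p q : Dbl L) : (p + q).a = p.a + q.a := rfl
@[simp] theorem add_b (p q : Dbl L) : (p + q).b = p.b + q.b := rfl
@[simp] theorem zero_a : (0 : Dbl L).a = 0 := rfl
@[simp] theorem zero_b : (0 : Dbl L).b = 0 := rfl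
@[simp] theorem smul_a (t : K) (p : Dbl L) : (t • p).a = t • p.a := rfl
@[simp] theorem smul_b (t : K) (p : Dbl L) : (t • p).b = t • p.b := rfl

instance : Bracket (Dbl L) (Dbl L) := ⟨fun p q => ⟨⁅p.a, q.a⁆, ⁅p.a, q.b⁆ + ⁅p.b, q.a⁆⟩⟩

@[simp] theorem lie_a (p q : Dbl L) : ⁅p, q⁆.a = ⁅p.a, q.a⁆ := rfl
@[simp] theorem lie_b (p q : Dbl L) : ⁅p, q⁆.b = ⁅p.a, q.b⁆ + ⁅p.b, q.a⁆ := rfl

instance : LieRing (Dbl L) where
  add_lie p q r := by
    ext1
    · simp
    · simp only [lie_b, add_a, add_b, add_lie]; abel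
  lie_add p q r := by
    ext1
    · simp
    · simp only [lie_b, add_a, add_b, lie_add]; abel
  lie_self p := by
    ext1
    · simp
    · simp only [lie_b, zero_b]
      rw [← lie_skew p.a p.b]; exact neg_add_cancel _
  leibniz_lie p q r := by
    ext1
    · simp
    · simp only [lie_b, lie_a, add_b, lie_add]
      rw [leibniz_lie p.a q.a r.b, leibniz_lie p.a q.b r.a, leibniz_lie p.b q.a r.a]
      simp only [add_lie]
      abel

instance : LieAlgebra K (Dbl L) where
  lie_smul t p q := by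
    ext1
    · simp
    · simp

end Dbl

end general

variable (K : Type*) [Field K]

theorem lieSpan_range_of : LieSubalgebra.lieSpan K (FL K) (Set.range (FreeLieAlgebra.of K)) = ⊤ := by
  rw [eq_top_iff]
  intro l _
  let S := LieSubalgebra.lieSpan K (FL K) (Set.range (FreeLieAlgebra.of K (X := Fin 2)))
  let φ : FL K →ₗ⁅K⁆ S :=
    FreeLieAlgebra.lift K fun i => ⟨FreeLieAlgebra.of K i, LieSubalgebra.subset_lieSpan ⟨i, rfl⟩⟩
  have h : S.incl.comp φ = LieHom.id := by
    apply FreeLieAlgebra.hom_ext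
    intro i
    simp [φ]
  have h2 : l = (φ l : FL K) := by
    have := congrArg (fun f : FL K →ₗ⁅K⁆ FL K => f l) h
    exact this.symm
  rw [h2]
  exact (φ l).2

/-- Induction principle. -/
theorem induct {p : FL K → Prop} (hx : p (gx K)) (hy : p (gy K)) (h0 : p 0)
    (hadd : ∀ a b, p a → p b → p (a + b)) (hsmul : ∀ (t : K) a, p a → p (t • a))
    (hlie : ∀ a b, p a → p b → p ⁅a, b⁆) (l : FL K) : p l := by
  have hl : l ∈ LieSubalgebra.lieSpan K (FL K) (Set.range (FreeLieAlgebra.of K)) := by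
    rw [lieSpan_range_of]; trivial
  refine LieSubalgebra.lieSpan_induction (p := fun l _ => p l) K ?_ h0 ?_ ?_ ?_ hl
  · rintro _ ⟨i, rfl⟩
    fin_cases i
    · exact hx
    · exact hy
  · intro a b _ _ ha hb; exact hadd a b ha hb
  · intro t a _ ha; exact hsmul t a ha
  · intro a b _ _ ha hb; exact hlie a b ha hb

theorem exists_der (u v : FL K) :
    ∃ D : LieDerivation K (FL K) (FL K), D (gx K) = u ∧ D (gy K) = v := by
  let φ : FL K →ₗ⁅K⁆ Dbl (FL K) :=
    FreeLieAlgebra.lift K fun i => ⟨FreeLieAlgebra.of K i, ![u, v] i⟩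
  have hof : ∀ i, φ (FreeLieAlgebra.of K i) = ⟨FreeLieAlgebra.of K i, ![u, v] i⟩ := by
    intro i; simp [φ]
  have ha : ∀ l, (φ l).a = l := by
    apply induct
    · show (φ (FreeLieAlgebra.of K 0)).a = _
      rw [hof]
    · show (φ (FreeLieAlgebra.of K 1)).a = _
      rw [hof]
    · simp
    · intro a b ha hb; simp [ha, hb]
    · intro t a ha; simp [ha]
    · intro a b ha hb; simp [ha, hb]
  refine ⟨⟨⟨⟨fun l => (φ l).b, ?_⟩, ?_⟩, ?_⟩, ?_, ?_⟩
  · intro a b; simp
  · intro t a; simp
  · intro a b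
    show (φ ⁅a, b⁆).b = ⁅a, (φ b).b⁆ - ⁅b, (φ a).b⁆
    rw [LieHom.map_lie, Dbl.lie_b, ha, ha, ← lie_skew b (φ a).b]
    abel
  · show (φ (FreeLieAlgebra.of K 0)).b = _
    rw [hof]; rfl
  · show (φ (FreeLieAlgebra.of K 1)).b = _
    rw [hof]; rfl

theorem der_ext {D D' : LieDerivation K (FL K) (FL K)} (hx : D (gx K) = D' (gx K))
    (hy : D (gy K) = D' (gy K)) : D = D' := by
  apply LieDerivation.ext_of_lieSpan_eq_top _ (lieSpan_range_of K)
  rintro _ ⟨i, rfl⟩
  fin_cases i
  · exact hx
  · exact hy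

/-! ### `sl2` linear algebra -/

section sl2

variable {K}
variable {W : Type*} [AddCommGroup W] [Module K W] {V : Type*} [AddCommGroup V] [Module K V]

/-- Commutation relations of an `sl2`-triple acting on a vector space. -/
structure Triple (h e f : Module.End K W) : Prop where
  ef : ∀ w, e (f w) - f (e w) = h w
  he : ∀ w, h (e w) - e (h w) = (2 : K) • e w
  hf : ∀ w, h (f w) - f (h w) = -((2 : K) • f w)

namespace Triple

variable {h e f : Module.End K W}

theorem h_f_pow (T : Triple h e f) {q : W} {μ : K} (hq : h q = μ • q) (k : ℕ) :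
    h ((f ^ k) q) = (μ - 2 * k) • (f ^ k) q := by
  induction k with
  | zero => simp [hq]
  | succ k ih =>
    rw [pow_succ', Module.End.mul_apply]
    have := T.hf ((f ^ k) q)
    rw [ih, map_smul] at this
    rw [sub_eq_iff_eq_add.1 this, ← neg_smul, ← add_smul]
    congr 1
    push_cast; ring

theorem h_e_pow (T : Triple h e f) {q : W} {μ : K} (hq : h q = μ • q) (k : ℕ) :
    h ((e ^ k) q) = (μ + 2 * k) • (e ^ k) q := by
  induction k with
  | zero => simp [hq]
  | succ k ih =>
    rw [pow_succ', Module.End.mul_apply]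
    have := T.he ((e ^ k) q)
    rw [ih, map_smul] at this
    rw [sub_eq_iff_eq_add.1 this, ← add_smul]
    congr 1
    push_cast; ring

theorem e_f_pow (T : Triple h e f) {q : W} {μ : K} (hq : h q = μ • q) (he : e q = 0) (k : ℕ) :
    e ((f ^ (k + 1)) q) = ((k + 1) * (μ - k)) • (f ^ k) q := by
  induction k with
  | zero =>
    have := T.ef q
    rw [he, map_zero, sub_zero] at this
    simp [this, hq]
  | succ k ih =>
    rw [pow_succ', Module.End.mul_apply]
    have := T.ef ((f ^ (k + 1)) q)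
    have hff : f ((f ^ k) q) = (f ^ (k + 1)) q := by rw [pow_succ', Module.End.mul_apply]
    rw [ih, map_smul, T.h_f_pow hq, hff] at this
    rw [sub_eq_iff_eq_add.1 this, ← add_smul]
    congr 1
    push_cast; ring

/-- The scalar in the next lemma. -/
def kappa (μ : K) : ℕ → K
  | 0 => 1
  | m + 1 => ((m + 1) * (μ - m)) * kappa μ m

theorem e_pow_f_pow (T : Triple h e f) {q : W} {μ : K} (hq : h q = μ • q) (he : e q = 0) (m : ℕ) :
    (e ^ m) ((f ^ m) q) = kappa μ m • q := by
  induction m with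
  | zero => simp [kappa]
  | succ m ih =>
    rw [pow_succ e, Module.End.mul_apply, T.e_f_pow hq he, map_smul, ih, kappa, smul_smul]

theorem kappa_ne_zero [CharZero K] {μ : K} {m : ℕ} (hμ : ∀ k : ℕ, k < m → μ - k ≠ 0) :
    kappa μ m ≠ 0 := by
  induction m with
  | zero => simp [kappa]
  | succ m ih =>
    rw [kappa]
    refine mul_ne_zero (mul_ne_zero ?_ (hμ m (by omega))) (ih fun k hk => hμ k (by omega))
    exact_mod_cast Nat.succ_ne_zero m

/-- Highest weight vectors killed by a power of `f` have weight a natural number. -/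
theorem weight_nat [CharZero K] (T : Triple h e f) {q : W} {μ : K} (hq : h q = μ • q)
    (he : e q = 0) (hq0 : q ≠ 0) (hf : ∃ n, (f ^ n) q = 0) : ∃ n : ℕ, μ = n := by
  classical
  obtain ⟨n, hn, hmin⟩ : ∃ n, (f ^ n) q = 0 ∧ ∀ k < n, (f ^ k) q ≠ 0 :=
    ⟨Nat.find hf, Nat.find_spec hf, fun k hk => Nat.find_min hf hk⟩
  cases n with
  | zero => exact absurd (by simpa using hn) hq0
  | succ n =>
    have h1 := T.e_f_pow hq he n
    rw [hn, map_zero] at h1
    have h2 := (smul_eq_zero.1 h1.symm).resolve_right (hmin n (by omega))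
    have h3 : ((n : K) + 1) ≠ 0 := by exact_mod_cast Nat.succ_ne_zero n
    have h4 := (mul_eq_zero.1 h2).resolve_left h3
    exact ⟨n, sub_eq_zero.1 h4⟩

/-- Lifting of highest weight vectors along an equivariant map. -/
theorem lift [CharZero K] (T : Triple h e f) {E F : Module.End K V}
    (π : W →ₗ[K] V) (πe : ∀ w, π (e w) = E (π w)) (πf : ∀ w, π (f w) = F (π w))
    {μ : K} (hμ : ∀ n : ℕ, μ + (n + 1) ≠ 0) (m : ℕ) :
    ∀ p : W, h p = μ • p → E (π p) = 0 → (e ^ (m + 1)) p = 0 →
      ∃ q, e q = 0 ∧ π q = π p := by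
  have πf' : ∀ (k : ℕ) (w : W), π ((f ^ k) w) = (F ^ k) (π w) := by
    intro k w
    induction k with
    | zero => simp
    | succ k ih => rw [pow_succ', Module.End.mul_apply, πf, ih, pow_succ', Module.End.mul_apply]
  have πe' : ∀ (k : ℕ) (w : W), π ((e ^ k) w) = (E ^ k) (π w) := by
    intro k w
    induction k with
    | zero => simp
    | succ k ih => rw [pow_succ', Module.End.mul_apply, πe, ih, pow_succ', Module.End.mul_apply]
  induction m with
  | zero =>
    intro p _ _ hp
    exact ⟨p, by simpa using hp, rfl⟩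
  | succ m ih =>
    intro p hp hEp hep
    obtain ⟨q0, hq0⟩ : ∃ q0, q0 = (e ^ (m + 1)) p := ⟨_, rfl⟩
    have eq0 : e q0 = 0 := by
      rw [hq0, ← Module.End.mul_apply, ← pow_succ']; exact hep
    have hwt : h q0 = (μ + 2 * (m + 1 : ℕ)) • q0 := by rw [hq0]; exact T.h_e_pow hp _
    have hπ : π q0 = 0 := by
      rw [hq0, πe', pow_succ, Module.End.mul_apply, hEp, map_zero]
    have hκ : kappa (μ + 2 * (m + 1 : ℕ)) (m + 1) ≠ 0 := by
      apply kappa_ne_zero
      intro k hk
      have h1 := hμ (2 * m + 1 - k)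
      have h2 : ((2 * m + 1 - k : ℕ) : K) = 2 * m + 1 - k := by
        rw [Nat.cast_sub (by omega)]; push_cast; ring
      rw [h2] at h1
      intro h3
      apply h1
      rw [← h3]; push_cast; ring
    obtain ⟨κ, hκ'⟩ : ∃ κ, κ = kappa (μ + 2 * (m + 1 : ℕ)) (m + 1) := ⟨_, rfl⟩
    rw [← hκ'] at hκ
    have hef := T.e_pow_f_pow hwt eq0 (m + 1)
    rw [← hκ'] at hef
    have g1 : h (p - κ⁻¹ • (f ^ (m + 1)) q0) = μ • (p - κ⁻¹ • (f ^ (m + 1)) q0) := by
      have h8 : μ + 2 * ((m + 1 : ℕ) : K) - 2 * ((m + 1 : ℕ) : K) = μ := by ring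
      rw [map_sub, map_smul, hp, T.h_f_pow hwt, h8, smul_sub, smul_comm μ]
    have g2 : π (p - κ⁻¹ • (f ^ (m + 1)) q0) = π p := by
      rw [map_sub, map_smul, πf', hπ, map_zero, smul_zero, sub_zero]
    have g3 : (e ^ (m + 1)) (p - κ⁻¹ • (f ^ (m + 1)) q0) = 0 := by
      rw [map_sub, map_smul, hef, smul_smul, inv_mul_cancel₀ hκ, one_smul, ← hq0, sub_self]
    obtain ⟨q, hq1, hq2⟩ := ih (p - κ⁻¹ • (f ^ (m + 1)) q0) g1 (by rw [g2, hEp]) g3
    exact ⟨q, hq1, hq2.trans g2⟩

end Triple

/-- Sums of eigenvectors for the eigenvalues `μ + c`. -/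
theorem eig_indep (H : Module.End K V) (c : K) (s : Finset K) :
    ∀ v : K → V, (∀ μ ∈ s, H (v μ) = (μ + c) • v μ) → ∑ μ ∈ s, v μ = 0 → ∀ μ ∈ s, v μ = 0 := by
  classical
  induction s using Finset.induction_on with
  | empty => intro v _ _ μ hμ; simp at hμ
  | @insert a s ha ih =>
    intro v hv hsum
    rw [Finset.sum_insert ha] at hsum
    have h1 := congrArg H hsum
    rw [map_add, map_sum, map_zero, hv a (Finset.mem_insert_self _ _)] at h1
    have h2 : ∑ μ ∈ s, (μ - a) • v μ = 0 := by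
      have h3 : ∑ μ ∈ s, (μ - a) • v μ = ∑ μ ∈ s, H (v μ) - (a + c) • ∑ μ ∈ s, v μ := by
        rw [Finset.smul_sum, ← Finset.sum_sub_distrib]
        apply Finset.sum_congr rfl
        intro μ hμ
        rw [hv μ (Finset.mem_insert_of_mem hμ), ← sub_smul]
        congr 1; ring
      rw [h3]
      have h4 : ∑ μ ∈ s, v μ = - v a := by
        rw [add_comm] at hsum; exact eq_neg_of_add_eq_zero_left hsum
      have h5 : ∑ μ ∈ s, H (v μ) = - ((a + c) • v a) := by
        rw [add_comm] at h1; exact eq_neg_of_add_eq_zero_left h1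
      rw [h4, h5, smul_neg, sub_self]
    have h6 : ∀ μ ∈ s, (μ - a) • v μ = 0 := by
      apply ih (fun μ => (μ - a) • v μ) _ h2
      intro μ hμ
      show H ((μ - a) • v μ) = (μ + c) • ((μ - a) • v μ)
      rw [map_smul, hv μ (Finset.mem_insert_of_mem hμ), smul_comm]
    have h7 : ∀ μ ∈ s, v μ = 0 := by
      intro μ hμ
      refine (smul_eq_zero.1 (h6 μ hμ)).resolve_left ?_
      intro h
      rw [sub_eq_zero.1 h] at hμ
      exact ha hμ
    intro μ hμ
    rcases Finset.mem_insert.1 hμ with rfl | hμ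
    · rw [Finset.sum_eq_zero h7, add_zero] at hsum
      exact hsum
    · exact h7 μ hμ

/-- The span of the eigenvectors. -/
def Dec (H : Module.End K V) : Submodule K V :=
  Submodule.span K {v | ∃ μ : K, H v = μ • v}

theorem mem_Dec (H : Module.End K V) {p : V} (hp : p ∈ Dec H) :
    ∃ v : K →₀ V, (∀ μ, H (v μ) = μ • v μ) ∧ p = v.sum fun _ w => w := by
  refine Submodule.span_induction
    (p := fun p _ => ∃ v : K →₀ V, (∀ μ, H (v μ) = μ • v μ) ∧ p = v.sum fun _ w => w)
    ?_ ?_ ?_ ?_ hp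
  · rintro x ⟨μ, hμ⟩
    refine ⟨Finsupp.single μ x, ?_, by simp⟩
    intro ν
    rcases eq_or_ne μ ν with rfl | hne
    · simpa using hμ
    · rw [Finsupp.single_eq_of_ne (Ne.symm hne)]; simp
  · exact ⟨0, by simp, by simp⟩
  · rintro x y _ _ ⟨v, hv, rfl⟩ ⟨w, hw, rfl⟩
    refine ⟨v + w, ?_, ?_⟩
    · intro μ; rw [Finsupp.add_apply, map_add, hv, hw, smul_add]
    · rw [Finsupp.sum_add_index' (by simp) (by simp)]
  · rintro a x _ ⟨v, hv, rfl⟩
    refine ⟨a • v, ?_, ?_⟩
    · intro μ; rw [Finsupp.smul_apply, map_smul, hv, smul_comm]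
    · rw [Finsupp.sum_smul_index' (by simp), Finsupp.smul_sum]

/-- The lifting statement for vectors which are not necessarily eigenvectors. -/
theorem Triple.lift_all [CharZero K] {h e f : Module.End K W} (T : Triple h e f)
    {H E F : Module.End K V} (T' : Triple H E F)
    (π : W →ₗ[K] V) (πh : ∀ w, π (h w) = H (π w)) (πe : ∀ w, π (e w) = E (π w))
    (πf : ∀ w, π (f w) = F (π w)) (hnil : ∀ w, ∃ n, (e ^ n) w = 0)
    (hnil' : ∀ v, ∃ n, (F ^ n) v = 0) (p : W) (hp : p ∈ Dec h) (hEp : E (π p) = 0) :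
    ∃ q, e q = 0 ∧ π q = π p := by
  obtain ⟨v, hv, rfl⟩ := mem_Dec h hp
  have h1 : ∑ μ ∈ v.support, E (π (v μ)) = 0 := by
    rw [← hEp, Finsupp.sum, map_sum, map_sum]
  have h2 := eig_indep H 2 v.support (fun μ => E (π (v μ))) (by
    intro μ _
    have h3 := T'.he (π (v μ))
    rw [← πh, hv, map_smul, map_smul] at h3
    rw [sub_eq_iff_eq_add.1 h3, ← add_smul, add_comm]) h1
  have h4 : ∀ μ ∈ v.support, ∃ q, e q = 0 ∧ π q = π (v μ) := by
    intro μ hμ
    have hE : E (π (v μ)) = 0 := h2 μ hμ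
    by_cases hz : π (v μ) = 0
    · exact ⟨0, by simp, by simp [hz]⟩
    · have hH : H (π (v μ)) = μ • π (v μ) := by rw [← πh, hv, map_smul]
      obtain ⟨n, rfl⟩ := T'.weight_nat hH hE hz (hnil' _)
      obtain ⟨m, hm⟩ := hnil (v (n : K))
      refine T.lift π πe πf ?_ m (v (n : K)) (hv _) hE ?_
      · intro k h5
        have h6 : ((n + (k + 1) : ℕ) : K) = 0 := by push_cast; exact h5
        rw [Nat.cast_eq_zero] at h6
        omega
      · rw [pow_succ', Module.End.mul_apply, hm, map_zero]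
  choose! g hg1 hg2 using h4
  refine ⟨∑ μ ∈ v.support, g μ, ?_, ?_⟩
  · rw [map_sum]
    exact Finset.sum_eq_zero hg1
  · rw [map_sum, Finsupp.sum, map_sum]
    exact Finset.sum_congr rfl hg2

end sl2

/-! ### The `sl2`-action on the free Lie algebra -/

section action

variable {K}

theorem nil_of (D : LieDerivation K (FL K) (FL K)) (hx : ∃ n : ℕ, ((D : Module.End K (FL K)) ^ n) (gx K) = 0)
    (hy : ∃ n : ℕ, ((D : Module.End K (FL K)) ^ n) (gy K) = 0) (l : FL K) :
    ∃ n : ℕ, ((D : Module.End K (FL K)) ^ n) l = 0 := by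
  have hle : ∀ (m n : ℕ) (l : FL K), m ≤ n → ((D : Module.End K (FL K)) ^ m) l = 0 →
      ((D : Module.End K (FL K)) ^ n) l = 0 := by
    intro m n l hmn h
    obtain ⟨k, rfl⟩ := Nat.exists_eq_add_of_le hmn
    rw [add_comm, pow_add, Module.End.mul_apply, h, map_zero]
  refine induct K (p := fun l => ∃ n : ℕ, ((D : Module.End K (FL K)) ^ n) l = 0) hx hy
    ⟨0, by simp⟩ ?_ ?_ ?_ l
  · rintro a b ⟨m, hm⟩ ⟨n, hn⟩
    refine ⟨max m n, ?_⟩
    rw [map_add, hle m _ a (le_max_left _ _) hm, hle n _ b (le_max_right _ _) hn, add_zero]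
  · rintro t a ⟨m, hm⟩
    exact ⟨m, by rw [map_smul, hm, smul_zero]⟩
  · rintro a b ⟨m, hm⟩ ⟨n, hn⟩
    refine ⟨m + n, ?_⟩
    have h1 := D.iterate_apply_lie (m + n) a b
    rw [Module.End.pow_apply]
    refine h1.trans (Finset.sum_eq_zero ?_)
    rintro ⟨i, j⟩ hij
    have hij' : i + j = m + n := Finset.HasAntidiagonal.mem_antidiagonal.1 hij
    by_cases hi : m ≤ i
    · have h2 := hle m i a hi hm
      rw [Module.End.pow_apply] at h2
      have h3 : (⇑D)^[i] a = 0 := h2
      show (m + n).choose i • ⁅(⇑D)^[i] a, (⇑D)^[j] b⁆ = 0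
      rw [h3, zero_lie, smul_zero]
    · have h2 := hle n j b (by omega) hn
      rw [Module.End.pow_apply] at h2
      have h3 : (⇑D)^[j] b = 0 := h2
      show (m + n).choose i • ⁅(⇑D)^[i] a, (⇑D)^[j] b⁆ = 0
      rw [h3, lie_zero, smul_zero]

theorem dec_top (H : LieDerivation K (FL K) (FL K)) (hx : H (gx K) = gx K)
    (hy : H (gy K) = - gy K) (l : FL K) : l ∈ Dec (H : Module.End K (FL K)) := by
  refine induct K (p := fun l => l ∈ Dec (H : Module.End K (FL K))) ?_ ?_ ?_ ?_ ?_ ?_ l
  · refine Submodule.subset_span ⟨1, ?_⟩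
    rw [one_smul]; exact hx
  · refine Submodule.subset_span ⟨-1, ?_⟩
    rw [neg_one_smul]; exact hy
  · exact Submodule.zero_mem _
  · intro a b ha hb; exact Submodule.add_mem _ ha hb
  · intro t a ha; exact Submodule.smul_mem _ t ha
  · intro a b ha hb
    refine Submodule.span_induction (p := fun a _ => ⁅a, b⁆ ∈ Dec (H : Module.End K (FL K)))
      ?_ ?_ ?_ ?_ ha
    · rintro a ⟨μ, hμ⟩
      refine Submodule.span_induction (p := fun b _ => ⁅a, b⁆ ∈ Dec (H : Module.End K (FL K)))
        ?_ ?_ ?_ ?_ hb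
      · rintro b ⟨ν, hν⟩
        refine Submodule.subset_span ⟨ν + μ, ?_⟩
        have hμ' : H a = μ • a := hμ
        have hν' : H b = ν • b := hν
        show H ⁅a, b⁆ = _
        rw [LieDerivation.apply_lie_eq_add, hμ', hν', lie_smul, smul_lie, ← add_smul]
      · rw [lie_zero]; exact Submodule.zero_mem _
      · intro x y _ _ h1 h2; rw [lie_add]; exact Submodule.add_mem _ h1 h2
      · intro t x _ h1; rw [lie_smul]; exact Submodule.smul_mem _ t h1
    · rw [zero_lie]; exact Submodule.zero_mem _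
    · intro x y _ _ h1 h2; rw [add_lie]; exact Submodule.add_mem _ h1 h2
    · intro t x _ h1; rw [smul_lie]; exact Submodule.smul_mem _ t h1

/-- The map `(u, v) ↦ [u, x] + [v, y]`. -/
noncomputable def piMap : (FL K × FL K) →ₗ[K] FL K where
  toFun p := ⁅p.1, gx K⁆ + ⁅p.2, gy K⁆
  map_add' p q := by
    simp only [Prod.fst_add, Prod.snd_add, add_lie]; abel
  map_smul' t p := by
    simp only [Prod.smul_fst, Prod.smul_snd, smul_lie, smul_add, RingHom.id_apply]

/-- The raising operator on pairs. -/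
noncomputable def eW (E : LieDerivation K (FL K) (FL K)) : Module.End K (FL K × FL K) where
  toFun p := (E p.1 + p.2, E p.2)
  map_add' p q := by
    ext <;> simp only [Prod.fst_add, Prod.snd_add, map_add]; abel
  map_smul' t p := by
    ext <;> simp

/-- The lowering operator on pairs. -/
noncomputable def fW (F : LieDerivation K (FL K) (FL K)) : Module.End K (FL K × FL K) where
  toFun p := (F p.1, F p.2 + p.1)
  map_add' p q := by
    ext
    · simp only [Prod.fst_add, map_add]
    · simp only [Prod.fst_add, Prod.snd_add, map_add]; abel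
  map_smul' t p := by
    ext <;> simp

/-- The weight operator on pairs. -/
noncomputable def hW (H : LieDerivation K (FL K) (FL K)) : Module.End K (FL K × FL K) where
  toFun p := (H p.1 + p.1, H p.2 - p.2)
  map_add' p q := by
    ext
    · simp only [Prod.fst_add, map_add]; abel
    · simp only [Prod.snd_add, map_add]; abel
  map_smul' t p := by
    ext
    · simp
    · simp [smul_sub]

/-- Every element is a linear combination of `x`, `y` and something in the image of `piMap`. -/
theorem lie_mem_range (a b : FL K) : ⁅a, b⁆ ∈ LinearMap.range (piMap (K := K)) := by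
  revert a
  refine induct K (p := fun b => ∀ a, ⁅a, b⁆ ∈ LinearMap.range (piMap (K := K))) ?_ ?_ ?_ ?_ ?_ ?_ b
  · intro a; exact ⟨(a, 0), by simp [piMap]⟩
  · intro a; exact ⟨(0, a), by simp [piMap]⟩
  · intro a; rw [lie_zero]; exact Submodule.zero_mem _
  · intro u v hu hv a; rw [lie_add]; exact Submodule.add_mem _ (hu a) (hv a)
  · intro t u hu a; rw [lie_smul]; exact Submodule.smul_mem _ t (hu a)
  · intro u v hu hv a
    rw [leibniz_lie, ← lie_skew u ⁅a, v⁆]
    exact Submodule.add_mem _ (hv _) (Submodule.neg_mem _ (hu _))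

theorem decomp (l : FL K) : ∃ (s t : K) (p : FL K × FL K), l = s • gx K + t • gy K + piMap p := by
  refine induct K (p := fun l => ∃ (s t : K) (p : FL K × FL K),
    l = s • gx K + t • gy K + piMap p) ?_ ?_ ?_ ?_ ?_ ?_ l
  · exact ⟨1, 0, 0, by simp⟩
  · exact ⟨0, 1, 0, by simp⟩
  · exact ⟨0, 0, 0, by simp⟩
  · rintro a b ⟨s, t, p, rfl⟩ ⟨s', t', p', rfl⟩
    refine ⟨s + s', t + t', p + p', ?_⟩
    rw [map_add]; simp only [add_smul]; abel
  · rintro r a ⟨s, t, p, rfl⟩
    refine ⟨r * s, r * t, r • p, ?_⟩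
    rw [map_smul]; simp only [smul_add, smul_smul]
  · intro a b _ _
    obtain ⟨p, hp⟩ := lie_mem_range a b
    exact ⟨0, 0, p, by simp [hp]⟩

attribute [local instance] LieRing.ofAssociativeRing LieAlgebra.ofAssociativeAlgebra in
/-- The coefficient of `x` is well defined. -/
theorem coeff_eq_zero (t : K) (p : FL K × FL K) (h : t • gx K + piMap p = 0) : t = 0 := by
  let χ : FL K →ₗ⁅K⁆ K := FreeLieAlgebra.lift K ![1, 0]
  have h1 : χ (gx K) = 1 := by simp [χ]
  have h2 : χ (piMap p) = 0 := by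
    show χ (⁅p.1, gx K⁆ + ⁅p.2, gy K⁆) = 0
    rw [map_add, LieHom.map_lie, LieHom.map_lie, LieRing.of_associative_ring_bracket,
      LieRing.of_associative_ring_bracket]
    ring
  have h3 := congrArg χ h
  rw [map_add, map_smul, h1, h2, map_zero] at h3
  simpa using h3

/-- Every constant is, up to a multiple of `x`, of the form `[u, x] + [v, y]` with
`δ u + v = 0` and `δ v = 0`. -/
theorem constants [CharZero K] (E : LieDerivation K (FL K) (FL K)) (Ex : E (gx K) = 0)
    (Ey : E (gy K) = gx K) (c : FL K) (hc : E c = 0) :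
    ∃ (s : K) (u : FL K), E (E u) = 0 ∧ c = s • gx K + (⁅u, gx K⁆ - ⁅E u, gy K⁆) := by
  obtain ⟨F, Fx, Fy⟩ := exists_der K (gy K) 0
  obtain ⟨H, Hx, Hy⟩ := exists_der K (gx K) (-gy K)
  have hH : ⁅E, F⁆ = H := by
    apply der_ext
    · rw [LieDerivation.lie_apply, Fx, Ex, map_zero, Ey, Hx, sub_zero]
    · rw [LieDerivation.lie_apply, Fy, Ey, map_zero, Fx, Hy, zero_sub]
  have hHE : ⁅H, E⁆ = (2 : K) • E := by
    apply der_ext
    · rw [LieDerivation.lie_apply, LieDerivation.smul_apply, Ex, Hx, Ex, map_zero, smul_zero,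
        sub_zero]
    · rw [LieDerivation.lie_apply, LieDerivation.smul_apply, Ey, Hy, map_neg, Ey, Hx, two_smul,
        sub_neg_eq_add]
  have hHF : ⁅H, F⁆ = -((2 : K) • F) := by
    apply der_ext
    · rw [LieDerivation.lie_apply, LieDerivation.neg_apply, LieDerivation.smul_apply, Fx, Hx, Hy,
        Fx, two_smul, neg_add, sub_eq_add_neg]
    · rw [LieDerivation.lie_apply, LieDerivation.neg_apply, LieDerivation.smul_apply, Fy, Hy,
        map_neg, Fy, map_zero, smul_zero, neg_zero, sub_zero]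
  have ef : ∀ w, E (F w) - F (E w) = H w := fun w => by
    rw [← hH, LieDerivation.lie_apply]
  have he : ∀ w, H (E w) - E (H w) = (2 : K) • E w := fun w => by
    rw [← LieDerivation.lie_apply, hHE, LieDerivation.smul_apply]
  have hf : ∀ w, H (F w) - F (H w) = -((2 : K) • F w) := fun w => by
    rw [← LieDerivation.lie_apply, hHF, LieDerivation.neg_apply, LieDerivation.smul_apply]
  have T' : Triple (H : Module.End K (FL K)) (E : Module.End K (FL K))
      (F : Module.End K (FL K)) := ⟨ef, he, hf⟩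
  have T : Triple (hW H) (eW E) (fW F) := by
    refine ⟨?_, ?_, ?_⟩
    · rintro ⟨u, v⟩
      apply Prod.ext
      · show (E (F u) + (F v + u)) - F (E u + v) = H u + u
        rw [← ef, map_add]; abel
      · show E (F v + u) - (F (E v) + (E u + v)) = H v - v
        rw [← ef, map_add]; abel
    · rintro ⟨u, v⟩
      apply Prod.ext
      · show (H (E u + v) + (E u + v)) - (E (H u + u) + (H v - v)) = (2 : K) • (E u + v)
        rw [smul_add, ← he, map_add, map_add, two_smul]; abel
      · show (H (E v) - E v) - E (H v - v) = (2 : K) • E v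
        rw [← he, map_sub]; abel
    · rintro ⟨u, v⟩
      apply Prod.ext
      · show (H (F u) + F u) - F (H u + u) = -((2 : K) • F u)
        rw [← hf, map_add]; abel
      · show (H (F v + u) - (F v + u)) - (F (H v - v) + (H u + u)) = -((2 : K) • (F v + u))
        rw [smul_add, neg_add, ← hf, map_add, map_sub, two_smul]; abel
  have πh : ∀ w, piMap (hW H w) = H (piMap w) := by
    rintro ⟨u, v⟩
    show ⁅H u + u, gx K⁆ + ⁅H v - v, gy K⁆ = H (⁅u, gx K⁆ + ⁅v, gy K⁆)
    rw [map_add, LieDerivation.apply_lie_eq_add, LieDerivation.apply_lie_eq_add, Hx, Hy, add_lie,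
      sub_lie, lie_neg]
    abel
  have πe : ∀ w, piMap (eW E w) = E (piMap w) := by
    rintro ⟨u, v⟩
    show ⁅E u + v, gx K⁆ + ⁅E v, gy K⁆ = E (⁅u, gx K⁆ + ⁅v, gy K⁆)
    rw [map_add, LieDerivation.apply_lie_eq_add, LieDerivation.apply_lie_eq_add, Ex, Ey, add_lie,
      lie_zero]
    abel
  have πf : ∀ w, piMap (fW F w) = F (piMap w) := by
    rintro ⟨u, v⟩
    show ⁅F u, gx K⁆ + ⁅F v + u, gy K⁆ = F (⁅u, gx K⁆ + ⁅v, gy K⁆)
    rw [map_add, LieDerivation.apply_lie_eq_add, LieDerivation.apply_lie_eq_add, Fx, Fy, add_lie,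
      lie_zero]
    abel
  have hEnil := nil_of E ⟨1, by rw [pow_one]; exact Ex⟩
    ⟨2, by rw [pow_two, Module.End.mul_apply]; show E (E (gy K)) = 0; rw [Ey, Ex]⟩
  have hFnil := nil_of F
    ⟨2, by rw [pow_two, Module.End.mul_apply]; show F (F (gx K)) = 0; rw [Fx, Fy]⟩
    ⟨1, by rw [pow_one]; exact Fy⟩
  have hWnil : ∀ w, ∃ n, ((eW E) ^ n) w = 0 := by
    have h1 : ∀ (n : ℕ) (w : FL K × FL K), (((eW E) ^ n) w).2
        = ((E : Module.End K (FL K)) ^ n) w.2 := by
      intro n w
      induction n with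
      | zero => rfl
      | succ n ih =>
        rw [pow_succ', Module.End.mul_apply, pow_succ', Module.End.mul_apply, ← ih]; rfl
    have h2 : ∀ (n : ℕ) (u : FL K), ((eW E) ^ n) (u, (0 : FL K))
        = (((E : Module.End K (FL K)) ^ n) u, 0) := by
      intro n u
      induction n with
      | zero => rfl
      | succ n ih =>
        rw [pow_succ', Module.End.mul_apply, ih, pow_succ', Module.End.mul_apply]
        apply Prod.ext
        · show E _ + 0 = E _
          rw [add_zero]
        · show E 0 = 0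
          rw [map_zero]
    rintro w
    obtain ⟨n, hn⟩ := hEnil w.2
    obtain ⟨m, hm⟩ := hEnil (((eW E) ^ n) w).1
    refine ⟨m + n, ?_⟩
    have h3 : ((eW E) ^ n) w = ((((eW E) ^ n) w).1, 0) := by
      apply Prod.ext
      · rfl
      · rw [h1, hn]
    rw [pow_add, Module.End.mul_apply, h3, h2, hm]
    rfl
  have hdec : ∀ w, w ∈ Dec (hW H) := by
    rintro ⟨u, v⟩
    have h1 : ((u, v) : FL K × FL K) = (u, 0) + (0, v) := by simp
    rw [h1]
    refine Submodule.add_mem _ ?_ ?_
    · refine Submodule.span_induction (p := fun u _ => ((u, 0) : FL K × FL K) ∈ Dec (hW H))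
        ?_ ?_ ?_ ?_ (dec_top H Hx Hy u)
      · rintro a ⟨μ, hμ⟩
        refine Submodule.subset_span ⟨μ + 1, ?_⟩
        have hμ' : H a = μ • a := hμ
        apply Prod.ext
        · show H a + a = (μ + 1) • a
          rw [hμ', add_smul, one_smul]
        · show H 0 - 0 = (μ + 1) • (0 : FL K)
          rw [map_zero, sub_zero, smul_zero]
      · exact Submodule.zero_mem _
      · intro a b _ _ ha hb
        have : ((a + b, 0) : FL K × FL K) = (a, 0) + (b, 0) := by simp
        rw [this]; exact Submodule.add_mem _ ha hb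
      · intro t a _ ha
        have : ((t • a, 0) : FL K × FL K) = t • (a, 0) := by simp
        rw [this]; exact Submodule.smul_mem _ t ha
    · refine Submodule.span_induction (p := fun v _ => ((0, v) : FL K × FL K) ∈ Dec (hW H))
        ?_ ?_ ?_ ?_ (dec_top H Hx Hy v)
      · rintro a ⟨μ, hμ⟩
        refine Submodule.subset_span ⟨μ - 1, ?_⟩
        have hμ' : H a = μ • a := hμ
        apply Prod.ext
        · show H 0 + 0 = (μ - 1) • (0 : FL K)
          rw [map_zero, add_zero, smul_zero]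
        · show H a - a = (μ - 1) • a
          rw [hμ', sub_smul, one_smul]
      · exact Submodule.zero_mem _
      · intro a b _ _ ha hb
        have : ((0, a + b) : FL K × FL K) = (0, a) + (0, b) := by simp
        rw [this]; exact Submodule.add_mem _ ha hb
      · intro t a _ ha
        have : ((0, t • a) : FL K × FL K) = t • (0, a) := by simp
        rw [this]; exact Submodule.smul_mem _ t ha
  obtain ⟨s, t, p, rfl⟩ := decomp c
  rw [map_add, map_add, map_smul, map_smul, Ex, Ey, smul_zero, zero_add, ← πe] at hc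
  have ht : t = 0 := coeff_eq_zero t _ hc
  subst ht
  rw [zero_smul, zero_add, πe] at hc
  obtain ⟨⟨u, v⟩, hq1, hq2⟩ := T.lift_all T' piMap πh πe πf hWnil hFnil p (hdec p) hc
  have h1 : E u + v = 0 := congrArg Prod.fst hq1
  have h2 : E v = 0 := congrArg Prod.snd hq1
  have h3 : v = - E u := (neg_eq_of_add_eq_zero_right h1).symm
  refine ⟨s, u, ?_, ?_⟩
  · rw [h3, map_neg, neg_eq_zero] at h2
    exact h2
  · rw [zero_smul, add_zero, ← hq2]
    show _ + (⁅u, gx K⁆ + ⁅v, gy K⁆) = _
    rw [h3, neg_lie, sub_eq_add_neg]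

end action

/-- **Theorem.**  Let `K` be a field of characteristic zero.  There is a derivation `δ` of the
free Lie algebra `L` on `x, y` with `δ x = 0`, `δ y = x`, and for every such `δ` and every set
`Hall` of elements of `L` (for instance the Hall monomials) the Lie subalgebra `U^(1)` attached
to `δ` and `Hall` is the algebra of all constants of `δ`. -/
theorem result (K : Type*) [Field K] [CharZero K] :
    (∃ δ : LieDerivation K (FL K) (FL K), δ (gx K) = 0 ∧ δ (gy K) = gx K) ∧
    ∀ δ : LieDerivation K (FL K) (FL K), δ (gx K) = 0 → δ (gy K) = gx K →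
      ∀ (Hall : Set (FL K)) (c : FL K), c ∈ U1 δ Hall ↔ δ c = 0 := by
  refine ⟨exists_der K 0 (gx K), ?_⟩
  intro δ hx hy Hall c
  constructor
  · intro hc
    refine LieSubalgebra.lieSpan_induction (p := fun c _ => δ c = 0) K ?_ ?_ ?_ ?_ ?_ hc
    · rintro c ((hc | ⟨f, g, -, h, -⟩) | ⟨A, -, B, -, -, h⟩)
      · rw [Set.mem_singleton_iff.1 hc]; exact hx
      · exact h
      · exact h
    · exact map_zero δ
    · intro a b _ _ ha hb; rw [map_add, ha, hb, add_zero]
    · intro t a _ ha; rw [map_smul, ha, smul_zero]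
    · intro a b _ _ ha hb
      rw [LieDerivation.apply_lie_eq_add, ha, hb, lie_zero, zero_lie, add_zero]
  · intro hc
    -- the elements `[f, δ f]` with `δ (δ f) = 0` lie in `U1`
    have key : ∀ f : FL K, δ (δ f) = 0 → ⁅f, δ f⁆ ∈ U1 δ Hall := by
      intro f hf
      by_cases h0 : δ f = 0
      · rw [h0, lie_zero]; exact LieSubalgebra.zero_mem _
      · refine LieSubalgebra.subset_lieSpan (Or.inl (Or.inr ⟨f, δ f, rfl, ?_, 2, by norm_num, 1,
          ?_, ?_⟩))
        · rw [LieDerivation.apply_lie_eq_add, hf, lie_zero, lie_self, add_zero]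
        · rw [one_smul]; rfl
        · rw [one_smul]; exact h0
    have hgx : gx K ∈ U1 δ Hall := LieSubalgebra.subset_lieSpan (Or.inl (Or.inl rfl))
    obtain ⟨s, u, hu, rfl⟩ := constants δ hx hy c hc
    refine LieSubalgebra.add_mem _ (LieSubalgebra.smul_mem _ s hgx) ?_
    have h1 : ⁅u, gx K⁆ - ⁅δ u, gy K⁆ = ⁅u + gy K, δ (u + gy K)⁆ - ⁅u, δ u⁆ - ⁅gy K, δ (gy K)⁆ := by
      rw [map_add, hy, lie_add, add_lie, add_lie, ← lie_skew (δ u) (gy K)]
      abel
    rw [h1]
    refine LieSubalgebra.sub_mem _ (LieSubalgebra.sub_mem _ (key _ ?_) (key _ hu)) (key _ ?_)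
    · rw [map_add, hy, map_add, hu, hx, add_zero]
    · rw [hy, hx]

end Pool.Agent.Results.MP_d68c88_al.Main
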